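import Pool.Agent.Lib.MP_1706f7_co.Crit

/-! Exactly which binary words have an abelian closure of positive entropy. -/

open Filter Topology Pool.Agent.Lib.MP_1706f7_co

namespace Pool.Agent.Results.MP_1706f7_co.Criterion

theorem result (x : ℕ → Fin 2) : ∃ h : ℝ,
    Tendsto (fun n : ℕ => Real.log ((blocks (abelianClosure x) n).ncard : ℝ) / n) atTop (𝓝 h) ∧
      (0 < h ↔ ∃ α η : ℝ, 0 < η ∧ ∀ n : ℕ, 1 ≤ n →
        (∃ u ∈ factors x n, (ones u : ℝ) ≤ n * α - η) ∧
          ∃ v ∈ factors x n, n * α + η ≤ (ones v : ℝ)) :=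
  criterion x

end Pool.Agent.Results.MP_1706f7_co.Criterion
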