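import Mathlib
import Pool.Agent.Lib.MP_1706f7_co.CritD
import Pool.Agent.Lib.MP_1706f7_co.Ex

/-!
The letter frequencies of uniformly recurrent, aperiodic, non-Sturmian binary words whose abelian
closure has entropy zero are exactly the irrational numbers between 0 and 1.
-/

open Filter Topology
open Pool.Agent.Lib.MP_1706f7_co.Crit

namespace Pool.Agent.Results.MP_1706f7_co.Frequencies

theorem result (α : ℝ) :
    (∃ x : ℕ → Fin 2, UniformlyRecurrent x ∧ Aperiodic x ∧ ¬ Sturmian x ∧ HasFrequency x α ∧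
      Tendsto (fun n : ℕ => Real.log ((blocks (abelianClosure x) n).ncard : ℝ) / n) atTop (𝓝 0)) ↔
    Irrational α ∧ 0 < α ∧ α < 1 := by
  constructor
  · rintro ⟨x, hu, ha, -, hf, h0⟩
    have hα : Irrational α := by
      by_contra hα
      exact lt_irrefl _ (pos_of_room x 0 h0 (room_of_rational hu ha hα hf))
    obtain ⟨⟨k, hk⟩, ⟨l, hl⟩⟩ := both_sides hu ha hf (le_refl 1)
    have h1 : (0 : ℝ) ≤ cnt x k 1 := by exact_mod_cast (cnt_bounds x k 1).1
    have h2 : (cnt x l 1 : ℝ) ≤ 1 := by exact_mod_cast (cnt_bounds x l 1).2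
    rw [Nat.cast_one, one_mul] at hk hl
    exact ⟨hα, by linarith, by linarith⟩
  · rintro ⟨hα, h0, h1⟩
    exact Pool.Agent.Lib.MP_1706f7_co.Ex.examples_zero α hα h0 h1

end Pool.Agent.Results.MP_1706f7_co.Frequencies
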